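import Mathlib

set_option autoImplicit false

open Set MeasureTheory Polynomial

namespace Pool.Agent.Results.MP_d888c7_an.NoBVSolution

/-- The class `Ω` of the problem: `w` is continuous and positive on `[0,1]`, `w 0 = 1`,
`w` is integrable on `[0,1]`, and `|1 - w x| / x` is integrable on `(0,1]`. -/
structure InOmega (w : ℝ → ℝ) : Prop where
  cont : ContinuousOn w (Icc 0 1)
  pos : ∀ x ∈ Icc (0 : ℝ) 1, 0 < w x
  zero : w 0 = 1
  int : IntegrableOn w (Icc 0 1)
  dini : IntegrableOn (fun x => |1 - w x| / x) (Ioc 0 1)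

/-- The sequence `lambda_n` of the problem: `lambda_0 = 1` and, for `n ≥ 1`,
`lambda_n = (∫_0^1 w₁(x) x^(n-1) dx) * (∫_0^1 w₂(x) x^(n-1) dx)⁻¹`. -/
noncomputable def lam (w₁ w₂ : ℝ → ℝ) (n : ℕ) : ℝ :=
  if n = 0 then 1
  else (∫ x in (0 : ℝ)..1, w₁ x * x ^ (n - 1)) * (∫ x in (0 : ℝ)..1, w₂ x * x ^ (n - 1))⁻¹

/-- `IsRSIntegral f β I`: the Riemann-Stieltjes integral `∫_0^1 f(x) dβ(x)` exists (as the limit of
the Riemann-Stieltjes sums over tagged subdivisions `0 = x 0 ≤ x 1 ≤ ... ≤ x N = 1`,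
`x i ≤ ξ i ≤ x (i+1)`, as the mesh tends to `0`) and equals `I`. -/
def IsRSIntegral (f β : ℝ → ℝ) (I : ℝ) : Prop :=
  ∀ ε > 0, ∃ δ > 0, ∀ (N : ℕ) (x ξ : ℕ → ℝ), x 0 = 0 → x N = 1 →
    (∀ i < N, x i ≤ ξ i ∧ ξ i ≤ x (i + 1) ∧ x (i + 1) - x i < δ) →
    |∑ i ∈ Finset.range N, f (ξ i) * (β (x (i + 1)) - β (x i)) - I| < ε

/-! ### Elementary facts on the Riemann-Stieltjes integral -/

lemma IsRSIntegral.add {f g β : ℝ → ℝ} {I J : ℝ} (hf : IsRSIntegral f β I)
    (hg : IsRSIntegral g β J) : IsRSIntegral (fun x => f x + g x) β (I + J) := by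
  intro ε hε
  obtain ⟨δ₁, hδ₁, h₁⟩ := hf (ε / 2) (by positivity)
  obtain ⟨δ₂, hδ₂, h₂⟩ := hg (ε / 2) (by positivity)
  refine ⟨min δ₁ δ₂, lt_min hδ₁ hδ₂, ?_⟩
  intro N x ξ h0 h1 hx
  have a₁ := h₁ N x ξ h0 h1 (fun i hi => ⟨(hx i hi).1, (hx i hi).2.1,
    (hx i hi).2.2.trans_le (min_le_left _ _)⟩)
  have a₂ := h₂ N x ξ h0 h1 (fun i hi => ⟨(hx i hi).1, (hx i hi).2.1,
    (hx i hi).2.2.trans_le (min_le_right _ _)⟩)
  have e : ∑ i ∈ Finset.range N, (f (ξ i) + g (ξ i)) * (β (x (i + 1)) - β (x i)) - (I + J)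
      = (∑ i ∈ Finset.range N, f (ξ i) * (β (x (i + 1)) - β (x i)) - I)
        + (∑ i ∈ Finset.range N, g (ξ i) * (β (x (i + 1)) - β (x i)) - J) := by
    simp only [add_mul, Finset.sum_add_distrib]
    ring
  rw [e]
  calc _ ≤ _ := abs_add_le _ _
    _ < ε := by linarith

lemma IsRSIntegral.const_mul {f β : ℝ → ℝ} {I : ℝ} (hf : IsRSIntegral f β I) (c : ℝ) :
    IsRSIntegral (fun x => c * f x) β (c * I) := by
  intro ε hε
  obtain ⟨δ₁, hδ₁, h₁⟩ := hf (ε / (|c| + 1)) (by positivity)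
  refine ⟨δ₁, hδ₁, ?_⟩
  intro N x ξ h0 h1 hx
  have a₁ := h₁ N x ξ h0 h1 hx
  have e : ∑ i ∈ Finset.range N, (c * f (ξ i)) * (β (x (i + 1)) - β (x i)) - c * I
      = c * (∑ i ∈ Finset.range N, f (ξ i) * (β (x (i + 1)) - β (x i)) - I) := by
    rw [mul_sub, Finset.mul_sum]
    simp only [mul_assoc]
  rw [e, abs_mul]
  have h3 : |c| * |∑ i ∈ Finset.range N, f (ξ i) * (β (x (i + 1)) - β (x i)) - I|
      ≤ |c| * (ε / (|c| + 1)) := mul_le_mul_of_nonneg_left a₁.le (abs_nonneg _)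
  have h4 : |c| * (ε / (|c| + 1)) < ε := by
    rw [mul_div_assoc', div_lt_iff₀ (by positivity)]
    nlinarith [abs_nonneg c]
  linarith

/-- The linear functional on polynomials with prescribed values on the monomials. -/
noncomputable def Lam (l : ℕ → ℝ) : ℝ[X] →ₗ[ℝ] ℝ := (Polynomial.basisMonomials ℝ).constr ℝ l

lemma Lam_monomial (l : ℕ → ℝ) (n : ℕ) (a : ℝ) : Lam l (monomial n a) = a * l n := by
  have h1 : (monomial n a : ℝ[X]) = a • (Polynomial.basisMonomials ℝ n) := by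
    simp [Polynomial.coe_basisMonomials, Polynomial.smul_monomial]
  rw [h1, map_smul, Lam, Module.Basis.constr_basis, smul_eq_mul]

lemma rs_poly {β : ℝ → ℝ} {l : ℕ → ℝ} (h : ∀ n : ℕ, IsRSIntegral (fun x => x ^ n) β (l n))
    (p : ℝ[X]) : IsRSIntegral (fun x => p.eval x) β (Lam l p) := by
  induction p using Polynomial.induction_on' with
  | add p q hp hq =>
    rw [map_add]
    simpa [Polynomial.eval_add] using hp.add hq
  | monomial n a =>
    rw [Lam_monomial]
    simpa [Polynomial.eval_monomial] using (h n).const_mul a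

lemma rs_bound {f β : ℝ → ℝ} {I M : ℝ} (hβ : BoundedVariationOn β (Icc 0 1))
    (hM : ∀ x ∈ Icc (0 : ℝ) 1, |f x| ≤ M) (hf : IsRSIntegral f β I) :
    |I| ≤ M * (eVariationOn β (Icc 0 1)).toReal := by
  have hM0 : 0 ≤ M := (abs_nonneg _).trans (hM 0 (by simp))
  refine le_of_forall_pos_le_add ?_
  intro ε hε
  obtain ⟨δ, hδ, h⟩ := hf ε hε
  obtain ⟨N, hN⟩ := exists_nat_gt (1 / δ)
  have hNpos : (0 : ℝ) < N := lt_trans (by positivity) hN
  have hN1 : 1 / (N : ℝ) < δ := by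
    rw [div_lt_iff₀ hNpos]
    rw [div_lt_iff₀ hδ] at hN
    linarith
  set x : ℕ → ℝ := fun i => (i : ℝ) / N with hx
  have hmono : Monotone x := by
    intro i j hij
    simp only [hx]
    have : (i : ℝ) ≤ j := by exact_mod_cast hij
    gcongr
  have key := h N x x (by simp [hx]) (by simp only [hx]; field_simp)
    (fun i hi => ⟨le_rfl, hmono (Nat.le_succ i), by
      simp only [hx]; push_cast; rw [← sub_div]; simpa using hN1⟩)
  have hmem : ∀ i ≤ N, x i ∈ Icc (0 : ℝ) 1 := by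
    intro i hi
    simp only [hx, mem_Icc]
    constructor
    · positivity
    · rw [div_le_one hNpos]; exact_mod_cast hi
  have hvar : ∑ i ∈ Finset.range N, |β (x (i + 1)) - β (x i)|
      ≤ (eVariationOn β (Icc 0 1)).toReal := by
    have h1 := eVariationOn.sum_le_of_monotoneOn_Icc (f := β) (s := Icc (0 : ℝ) 1) (m := 0)
      (n := N) (u := x) (hmono.monotoneOn _) (fun i hi => hmem i hi.2)
    have h2 := (ENNReal.toReal_le_toReal (ne_top_of_le_ne_top hβ h1) hβ).2 h1
    rw [ENNReal.toReal_sum (fun i _ => edist_ne_top _ _)] at h2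
    simp only [edist_dist, Real.dist_eq, ENNReal.toReal_ofReal (abs_nonneg _)] at h2
    rw [Finset.range_eq_Ico]
    exact h2
  have hsum : |∑ i ∈ Finset.range N, f (x i) * (β (x (i + 1)) - β (x i))|
      ≤ M * (eVariationOn β (Icc 0 1)).toReal := by
    calc |∑ i ∈ Finset.range N, f (x i) * (β (x (i + 1)) - β (x i))|
        ≤ ∑ i ∈ Finset.range N, |f (x i) * (β (x (i + 1)) - β (x i))| :=
          Finset.abs_sum_le_sum_abs _ _
      _ ≤ ∑ i ∈ Finset.range N, M * |β (x (i + 1)) - β (x i)| := by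
          refine Finset.sum_le_sum (fun i hi => ?_)
          rw [abs_mul]
          exact mul_le_mul_of_nonneg_right (hM _ (hmem i (Finset.mem_range.1 hi).le))
            (abs_nonneg _)
      _ = M * ∑ i ∈ Finset.range N, |β (x (i + 1)) - β (x i)| := by rw [Finset.mul_sum]
      _ ≤ M * (eVariationOn β (Icc 0 1)).toReal := mul_le_mul_of_nonneg_left hvar hM0
  have e2 : I = (∑ i ∈ Finset.range N, f (x i) * (β (x (i + 1)) - β (x i)))
    - (∑ i ∈ Finset.range N, f (x i) * (β (x (i + 1)) - β (x i)) - I) := by ring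
  have h9 := abs_sub (∑ i ∈ Finset.range N, f (x i) * (β (x (i + 1)) - β (x i)))
    (∑ i ∈ Finset.range N, f (x i) * (β (x (i + 1)) - β (x i)) - I)
  rw [← e2] at h9
  exact h9.trans (add_le_add hsum key.le)

/-! ### The multiplicative convolution trick -/

/-- The linear map on polynomials sending `X^m` to `(∫_0^1 w(y) y^m dy) X^(m+1)`. -/
noncomputable def T (w : ℝ → ℝ) : ℝ[X] →ₗ[ℝ] ℝ[X] :=
  (Polynomial.basisMonomials ℝ).constr ℝ
    (fun m => monomial (m + 1) (∫ y in (0 : ℝ)..1, w y * y ^ m))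

lemma T_monomial (w : ℝ → ℝ) (m : ℕ) (a : ℝ) :
    T w (monomial m a) = monomial (m + 1) (a * ∫ y in (0 : ℝ)..1, w y * y ^ m) := by
  have h1 : (monomial m a : ℝ[X]) = a • (Polynomial.basisMonomials ℝ m) := by
    simp [Polynomial.coe_basisMonomials, Polynomial.smul_monomial]
  rw [h1, map_smul, T, Module.Basis.constr_basis, Polynomial.smul_monomial, smul_eq_mul]

lemma intInt {f : ℝ → ℝ} (hf : ContinuousOn f (Icc 0 1)) :
    IntervalIntegrable f volume 0 1 := by
  apply ContinuousOn.intervalIntegrable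
  rwa [uIcc_of_le zero_le_one]

lemma contMulPoly {w : ℝ → ℝ} (hw : ContinuousOn w (Icc 0 1)) (q : ℝ[X]) (x : ℝ) :
    ContinuousOn (fun y => q.eval (x * y) * w y) (Icc 0 1) := by
  apply ContinuousOn.mul _ hw
  exact (q.continuous.comp (continuous_const.mul continuous_id)).continuousOn

lemma T_eval {w : ℝ → ℝ} (hw : ContinuousOn w (Icc 0 1)) (q : ℝ[X]) (x : ℝ) :
    (T w q).eval x = x * ∫ y in (0 : ℝ)..1, q.eval (x * y) * w y := by
  induction q using Polynomial.induction_on' with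
  | add p q hp hq =>
    rw [map_add, eval_add, hp, hq, ← mul_add, ← intervalIntegral.integral_add
      (intInt (contMulPoly hw p x)) (intInt (contMulPoly hw q x))]
    simp only [eval_add, add_mul]
  | monomial n a =>
    rw [T_monomial, eval_monomial]
    have : ∀ y : ℝ, (monomial n a).eval (x * y) * w y = (a * x ^ n) * (w y * y ^ n) := by
      intro y
      rw [eval_monomial]
      ring
    simp only [this]
    rw [intervalIntegral.integral_const_mul]
    ring

lemma Lam_T {w₁ w₂ : ℝ → ℝ} (hw₁ : ContinuousOn w₁ (Icc 0 1))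
    (hpos : ∀ m : ℕ, (∫ y in (0 : ℝ)..1, w₂ y * y ^ m) ≠ 0) (q : ℝ[X]) :
    Lam (lam w₁ w₂) (T w₂ q) = ∫ t in (0 : ℝ)..1, q.eval t * w₁ t := by
  induction q using Polynomial.induction_on' with
  | add p q hp hq =>
    have hp' : ContinuousOn (fun t => p.eval t * w₁ t) (Icc 0 1) := p.continuous.continuousOn.mul hw₁
    have hq' : ContinuousOn (fun t => q.eval t * w₁ t) (Icc 0 1) := q.continuous.continuousOn.mul hw₁
    rw [map_add, map_add, hp, hq, ← intervalIntegral.integral_add (intInt hp') (intInt hq')]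
    simp only [eval_add, add_mul]
  | monomial n a =>
    rw [T_monomial, Lam_monomial]
    have h1 : ∀ y : ℝ, (monomial n a).eval y * w₁ y = a * (w₁ y * y ^ n) := by
      intro y
      rw [eval_monomial]
      ring
    simp only [h1]
    rw [intervalIntegral.integral_const_mul]
    have h2 := hpos n
    simp only [lam, Nat.succ_ne_zero, if_false, Nat.add_sub_cancel]
    field_simp

/-- If the moment problem has a solution of bounded variation, then every continuous `φ` whose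
multiplicative convolution with `w₂` vanishes is orthogonal to `w₁`. -/
lemma orth {w₁ w₂ β φ : ℝ → ℝ} (hw₁ : ContinuousOn w₁ (Icc 0 1))
    (hw₂ : ContinuousOn w₂ (Icc 0 1))
    (b₁ : ∀ x ∈ Icc (0 : ℝ) 1, |w₁ x| ≤ 1) (b₂ : ∀ x ∈ Icc (0 : ℝ) 1, |w₂ x| ≤ 1)
    (hpos : ∀ m : ℕ, (∫ y in (0 : ℝ)..1, w₂ y * y ^ m) ≠ 0)
    (hβ : BoundedVariationOn β (Icc 0 1))
    (hmom : ∀ n : ℕ, IsRSIntegral (fun x => x ^ n) β (lam w₁ w₂ n))
    (hφ : ContinuousOn φ (Icc 0 1))
    (hconv : ∀ x ∈ Icc (0 : ℝ) 1, ∫ y in (0 : ℝ)..1, φ (x * y) * w₂ y = 0) :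
    ∫ t in (0 : ℝ)..1, φ t * w₁ t = 0 := by
  set V := (eVariationOn β (Icc 0 1)).toReal with hV
  have hV0 : 0 ≤ V := ENNReal.toReal_nonneg
  have main : ∀ ε > 0, |∫ t in (0 : ℝ)..1, φ t * w₁ t| ≤ ε * (V + 1) := by
    intro ε hε
    obtain ⟨q, hq⟩ := exists_polynomial_near_of_continuousOn 0 1 φ hφ ε hε
    have hT : ∀ x ∈ Icc (0 : ℝ) 1, |(T w₂ q).eval x| ≤ ε := by
      intro x hx
      have hφx : ContinuousOn (fun y => φ (x * y) * w₂ y) (Icc 0 1) := by
        apply ContinuousOn.mul _ hw₂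
        apply hφ.comp (continuous_const.mul continuous_id).continuousOn
        intro y hy
        exact ⟨mul_nonneg hx.1 hy.1, mul_le_one₀ hx.2 hy.1 hy.2⟩
      rw [T_eval hw₂, abs_mul, abs_of_nonneg hx.1]
      have e : ∫ y in (0 : ℝ)..1, q.eval (x * y) * w₂ y
          = ∫ y in (0 : ℝ)..1, (q.eval (x * y) * w₂ y - φ (x * y) * w₂ y) := by
        rw [intervalIntegral.integral_sub (intInt (contMulPoly hw₂ q x)) (intInt hφx),
          hconv x hx, sub_zero]
      have h3 : |∫ y in (0 : ℝ)..1, q.eval (x * y) * w₂ y| ≤ ε := by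
        rw [e]
        have h4 := intervalIntegral.norm_integral_le_of_norm_le_const (a := (0 : ℝ)) (b := 1)
          (C := ε) (f := fun y => q.eval (x * y) * w₂ y - φ (x * y) * w₂ y) (by
            intro y hy
            rw [uIoc_of_le zero_le_one] at hy
            have hy' : y ∈ Icc (0 : ℝ) 1 := ⟨hy.1.le, hy.2⟩
            have hxy : x * y ∈ Icc (0 : ℝ) 1 :=
              ⟨mul_nonneg hx.1 hy'.1, mul_le_one₀ hx.2 hy'.1 hy'.2⟩
            rw [← sub_mul, Real.norm_eq_abs, abs_mul]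
            calc _ ≤ ε * 1 := mul_le_mul (hq _ hxy).le (b₂ y hy') (abs_nonneg _) hε.le
              _ = ε := mul_one _)
        simpa using h4
      calc x * |∫ y in (0 : ℝ)..1, q.eval (x * y) * w₂ y| ≤ 1 * ε :=
            mul_le_mul hx.2 h3 (abs_nonneg _) zero_le_one
        _ = ε := one_mul _
    have h5 := rs_bound hβ hT (rs_poly hmom (T w₂ q))
    rw [Lam_T hw₁ hpos] at h5
    have hφw : ContinuousOn (fun t => φ t * w₁ t) (Icc 0 1) := hφ.mul hw₁
    have hqw : ContinuousOn (fun t => q.eval t * w₁ t) (Icc 0 1) :=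
      q.continuous.continuousOn.mul hw₁
    have h6 : |(∫ t in (0 : ℝ)..1, q.eval t * w₁ t) - ∫ t in (0 : ℝ)..1, φ t * w₁ t| ≤ ε := by
      rw [← intervalIntegral.integral_sub (intInt hqw) (intInt hφw)]
      have h4 := intervalIntegral.norm_integral_le_of_norm_le_const (a := (0 : ℝ)) (b := 1)
        (C := ε) (f := fun y => q.eval y * w₁ y - φ y * w₁ y) (by
          intro y hy
          rw [uIoc_of_le zero_le_one] at hy
          have hy' : y ∈ Icc (0 : ℝ) 1 := ⟨hy.1.le, hy.2⟩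
          rw [← sub_mul, Real.norm_eq_abs, abs_mul]
          calc _ ≤ ε * 1 := mul_le_mul (hq _ hy').le (b₁ y hy') (abs_nonneg _) hε.le
            _ = ε := mul_one _)
      simpa using h4
    have h7 : |∫ t in (0 : ℝ)..1, φ t * w₁ t| ≤ ε + ε * V := by
      have e3 : (∫ t in (0 : ℝ)..1, φ t * w₁ t) = (∫ t in (0 : ℝ)..1, q.eval t * w₁ t)
        - ((∫ t in (0 : ℝ)..1, q.eval t * w₁ t) - ∫ t in (0 : ℝ)..1, φ t * w₁ t) := by ring
      have h9 := abs_sub (∫ t in (0 : ℝ)..1, q.eval t * w₁ t)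
        ((∫ t in (0 : ℝ)..1, q.eval t * w₁ t) - ∫ t in (0 : ℝ)..1, φ t * w₁ t)
      rw [← e3] at h9
      linarith
    linarith
  by_contra hne
  have hpos' : 0 < |∫ t in (0 : ℝ)..1, φ t * w₁ t| := abs_pos.2 hne
  set c := |∫ t in (0 : ℝ)..1, φ t * w₁ t| with hc
  have h8 := main (c / (2 * (V + 1))) (by positivity)
  have h9 : c / (2 * (V + 1)) * (V + 1) = c / 2 := by field_simp
  rw [h9] at h8
  linarith

/-! ### The two weights -/

/-- The weights `(1 + A (1-x)^3) / (1 + A)`. -/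
noncomputable def W (A : ℝ) (x : ℝ) : ℝ := (1 + A * (1 - x) ^ 3) / (1 + A)


lemma W_cont (A : ℝ) : Continuous (W A) := by
  unfold W
  fun_prop

lemma W_pos {A : ℝ} (hA : 0 < A) {x : ℝ} (hx : x ∈ Icc (0 : ℝ) 1) : 0 < W A x := by
  unfold W
  have : 0 ≤ (1 - x) ^ 3 := pow_nonneg (by linarith [hx.2]) 3
  positivity

lemma W_le_one {A : ℝ} (hA : 0 < A) {x : ℝ} (hx : x ∈ Icc (0 : ℝ) 1) : W A x ≤ 1 := by
  unfold W
  rw [div_le_one (by linarith)]
  have : (1 - x) ^ 3 ≤ 1 := pow_le_one₀ (by linarith [hx.2]) (by linarith [hx.1])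
  nlinarith

lemma W_abs_le {A : ℝ} (hA : 0 < A) : ∀ x ∈ Icc (0 : ℝ) 1, |W A x| ≤ 1 := by
  intro x hx
  rw [abs_of_pos (W_pos hA hx)]
  exact W_le_one hA hx

lemma W_omega {A : ℝ} (hA : 0 < A) : InOmega (W A) where
  cont := (W_cont A).continuousOn
  pos := fun x hx => W_pos hA hx
  zero := by
    unfold W
    have : 1 + A ≠ 0 := by positivity
    field_simp
    ring
  int := (W_cont A).continuousOn.integrableOn_Icc
  dini := by
    have h1 : IntegrableOn (fun x : ℝ => (A / (1 + A)) * (3 - 3 * x + x ^ 2)) (Ioc 0 1) := by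
      apply Continuous.integrableOn_Ioc
      fun_prop
    refine h1.congr_fun ?_ measurableSet_Ioc
    intro x hx
    have hx0 : 0 < x := hx.1
    have hA1 : 0 < 1 + A := by positivity
    have e : 1 - W A x = (A / (1 + A)) * (3 - 3 * x + x ^ 2) * x := by
      unfold W
      field_simp
      ring
    have hnn : 0 ≤ (A / (1 + A)) * (3 - 3 * x + x ^ 2) * x := by
      have h2 : 0 ≤ 3 - 3 * x + x ^ 2 := by nlinarith [hx.2, sq_nonneg x]
      positivity
    simp only
    rw [e, abs_of_nonneg hnn]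
    field_simp

lemma W_anti {A : ℝ} (hA : 0 < A) : AntitoneOn (W A) (Icc 0 1) := by
  intro x hx y hy hxy
  unfold W
  have h1 : (1 - y) ^ 3 ≤ (1 - x) ^ 3 := pow_le_pow_left₀ (by linarith [hy.2]) (by linarith) 3
  gcongr

lemma ratio_anti {A B : ℝ} (hB : 0 < B) (hAB : B ≤ A) :
    AntitoneOn (fun x => W A x / W B x) (Icc 0 1) := by
  intro x hx y hy hxy
  have hA : 0 < A := lt_of_lt_of_le hB hAB
  simp only
  rw [div_le_div_iff₀ (W_pos hB hy) (W_pos hB hx)]
  have h1 : (1 - y) ^ 3 ≤ (1 - x) ^ 3 := pow_le_pow_left₀ (by linarith [hy.2]) (by linarith) 3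
  unfold W
  have hA1 : 0 < 1 + A := by positivity
  have hB1 : 0 < 1 + B := by positivity
  rw [div_mul_div_comm, div_mul_div_comm]
  refine div_le_div_of_nonneg_right ?_ (by positivity)
  nlinarith [mul_nonneg (sub_nonneg.2 hAB) (sub_nonneg.2 h1)]

lemma W_moment_pos {A : ℝ} (hA : 0 < A) (m : ℕ) : (∫ y in (0 : ℝ)..1, W A y * y ^ m) ≠ 0 := by
  apply ne_of_gt
  apply intervalIntegral.intervalIntegral_pos_of_pos_on
  · apply Continuous.intervalIntegrable
    exact (W_cont A).mul (continuous_pow m)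
  · intro x hx
    exact mul_pos (W_pos hA ⟨hx.1.le, hx.2.le⟩) (pow_pos hx.1 m)
  · exact zero_lt_one

/-! ### Mellin transforms -/

lemma mellin_W {A : ℝ} (hA : 0 < A) {s : ℂ} (hs : 0 < s.re) :
    ∫ y in (0 : ℝ)..1, (y : ℂ) ^ s * (W A y : ℂ)
      = (1 / (1 + A)) * (1 / (s + 1) + 6 * A / ((s + 1) * (s + 2) * (s + 3) * (s + 4))) := by
  have hI : ∀ k : ℕ, ∫ y in (0 : ℝ)..1, (y : ℂ) ^ (s + k) = 1 / (s + k + 1) := by
    intro k
    have hre : (0 : ℝ) < (s + k).re := by simp; positivity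
    rw [integral_cpow (Or.inl (by linarith))]
    have h0 : s + k + 1 ≠ 0 := by
      intro h
      have := congrArg Complex.re h
      simp at this
      have hk : (0 : ℝ) ≤ k := Nat.cast_nonneg k
      linarith
    rw [Complex.ofReal_one, Complex.one_cpow, Complex.ofReal_zero, Complex.zero_cpow h0, sub_zero]
  have hcont : ∀ k : ℕ, Continuous (fun y : ℝ => (y : ℂ) ^ (s + k)) := by
    intro k
    apply Complex.continuous_ofReal_cpow_const
    simp; positivity
  have hexp : ∀ y : ℝ, y ∈ Set.uIoc (0 : ℝ) 1 → (y : ℂ) ^ s * (W A y : ℂ)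
      = ((1 + A : ℂ) / (1 + A)) * (y : ℂ) ^ (s + (0 : ℕ))
        + (-(3 * A : ℂ) / (1 + A)) * (y : ℂ) ^ (s + (1 : ℕ))
        + ((3 * A : ℂ) / (1 + A)) * (y : ℂ) ^ (s + (2 : ℕ))
        + (-(A : ℂ) / (1 + A)) * (y : ℂ) ^ (s + (3 : ℕ)) := by
    intro y hy
    rw [uIoc_of_le zero_le_one] at hy
    have hy0 : (y : ℂ) ≠ 0 := by exact_mod_cast hy.1.ne'
    rw [Complex.cpow_add _ _ hy0, Complex.cpow_add _ _ hy0, Complex.cpow_add _ _ hy0,
      Complex.cpow_add _ _ hy0, Complex.cpow_natCast, Complex.cpow_natCast, Complex.cpow_natCast,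
      Complex.cpow_natCast]
    unfold W
    push_cast
    ring
  have i0 := ((hcont 0).const_mul ((1 + A : ℂ) / (1 + A))).intervalIntegrable (μ := volume) 0 1
  have i1 := ((hcont 1).const_mul (-(3 * A : ℂ) / (1 + A))).intervalIntegrable (μ := volume) 0 1
  have i2 := ((hcont 2).const_mul ((3 * A : ℂ) / (1 + A))).intervalIntegrable (μ := volume) 0 1
  have i3 := ((hcont 3).const_mul (-(A : ℂ) / (1 + A))).intervalIntegrable (μ := volume) 0 1
  rw [intervalIntegral.integral_congr_ae (Filter.Eventually.of_forall hexp),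
    intervalIntegral.integral_add ((i0.add i1).add i2) i3,
    intervalIntegral.integral_add (i0.add i1) i2,
    intervalIntegral.integral_add i0 i1,
    intervalIntegral.integral_const_mul, intervalIntegral.integral_const_mul,
    intervalIntegral.integral_const_mul, intervalIntegral.integral_const_mul,
    hI, hI, hI, hI]
  have hA1 : (1 + A : ℂ) ≠ 0 := by
    have : (1 + A : ℝ) ≠ 0 := by positivity
    exact_mod_cast this
  have hne : ∀ k : ℝ, 0 ≤ k → s + k ≠ 0 := by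
    intro k hk h
    have := congrArg Complex.re h
    simp at this
    linarith
  have n1 : s + 1 ≠ 0 := by simpa using hne 1 (by norm_num)
  have n2 : s + 2 ≠ 0 := by simpa using hne 2 (by norm_num)
  have n3 : s + 3 ≠ 0 := by simpa using hne 3 (by norm_num)
  have n4 : s + 4 ≠ 0 := by simpa using hne 4 (by norm_num)
  have e0 : s + ((0 : ℕ) : ℂ) + 1 = s + 1 := by push_cast; ring
  have e1 : s + ((1 : ℕ) : ℂ) + 1 = s + 2 := by push_cast; ring
  have e2 : s + ((2 : ℕ) : ℂ) + 1 = s + 3 := by push_cast; ring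
  have e3 : s + ((3 : ℕ) : ℂ) + 1 = s + 4 := by push_cast; ring
  rw [e0, e1, e2, e3]
  field_simp
  ring

/-- The exponent `s = z₀ - 1 = 1 + i √47`. -/
noncomputable def s0 : ℂ := ⟨1, Real.sqrt 47⟩

lemma s0_re : s0.re = 1 := rfl

lemma s0_prod : (s0 + 2) * (s0 + 3) * (s0 + 4) = -504 := by
  have h : Real.sqrt 47 * Real.sqrt 47 = 47 := Real.mul_self_sqrt (by norm_num)
  have hs : (s0 - 1) * (s0 - 1) = -47 := by
    apply Complex.ext
    · simp [s0, h]
    · simp [s0]
  have : (s0 + 2) * (s0 + 3) * (s0 + 4) + 504 = (s0 + 11) * ((s0 - 1) * (s0 - 1) + 47) := by ring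
  rw [hs] at this
  linear_combination this

lemma s0_add_one : s0 + 1 ≠ 0 := by
  intro h
  have := congrArg Complex.re h
  simp [s0] at this

lemma mellin_zero : ∫ y in (0 : ℝ)..1, (y : ℂ) ^ s0 * (W 84 y : ℂ) = 0 := by
  rw [mellin_W (by norm_num) (by rw [s0_re]; norm_num)]
  have h1 : (s0 + 1) * (s0 + 2) * (s0 + 3) * (s0 + 4) = (s0 + 1) * (-504) := by
    rw [← s0_prod]; ring
  rw [h1]
  have := s0_add_one
  push_cast
  field_simp
  norm_num

lemma mellin_ne : ∫ y in (0 : ℝ)..1, (y : ℂ) ^ s0 * (W 168 y : ℂ) ≠ 0 := by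
  rw [mellin_W (by norm_num) (by rw [s0_re]; norm_num)]
  have h1 : (s0 + 1) * (s0 + 2) * (s0 + 3) * (s0 + 4) = (s0 + 1) * (-504) := by
    rw [← s0_prod]; ring
  rw [h1]
  have h2 := s0_add_one
  have h3 : (1 : ℂ) / (s0 + 1) + 6 * ((168 : ℝ) : ℂ) / ((s0 + 1) * (-504)) = - (1 / (s0 + 1)) := by
    push_cast
    field_simp
    norm_num
  rw [h3]
  push_cast
  have h4 : (1 : ℂ) / (s0 + 1) ≠ 0 := one_div_ne_zero h2
  have h5 : (1 : ℂ) / (1 + 168) ≠ 0 := by norm_num
  exact mul_ne_zero h5 (neg_ne_zero.2 h4)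

/-- There are weights `w₁, w₂` in `Ω`, both monotone on `[0,1]`, with `w₁ / w₂` nonincreasing on
`[0,1]`, such that the Hausdorff moment problem for `lam w₁ w₂` has no solution of bounded
variation. (Explicitly `w₂ x = (1 + 84 (1-x)^3)/85` and `w₁ x = (1 + 168 (1-x)^3)/169`.) -/
theorem result : ∃ w₁ w₂ : ℝ → ℝ,
    InOmega w₁ ∧ InOmega w₂ ∧
    (MonotoneOn w₁ (Icc 0 1) ∨ AntitoneOn w₁ (Icc 0 1)) ∧
    (MonotoneOn w₂ (Icc 0 1) ∨ AntitoneOn w₂ (Icc 0 1)) ∧
    AntitoneOn (fun x => w₁ x / w₂ x) (Icc 0 1) ∧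
    ¬ ∃ β : ℝ → ℝ, BoundedVariationOn β (Icc 0 1) ∧
      ∀ n : ℕ, IsRSIntegral (fun x => x ^ n) β (lam w₁ w₂ n) := by
  refine ⟨W 168, W 84, W_omega (by norm_num), W_omega (by norm_num),
    Or.inr (W_anti (by norm_num)), Or.inr (W_anti (by norm_num)),
    ratio_anti (by norm_num) (by norm_num), ?_⟩
  rintro ⟨β, hβ, hmom⟩
  have hs : 0 < s0.re := by rw [s0_re]; norm_num
  have hpc : Continuous (fun t : ℝ => (t : ℂ) ^ s0) := Complex.continuous_ofReal_cpow_const hs
  have hcW : ∀ A : ℝ, Continuous (fun t : ℝ => (t : ℂ) ^ s0 * (W A t : ℂ)) := fun A =>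
    hpc.mul (Complex.continuous_ofReal.comp (W_cont A))
  have hz : ∀ x ∈ Icc (0 : ℝ) 1,
      ∫ y in (0 : ℝ)..1, (((x * y : ℝ) : ℂ) ^ s0 * (W 84 y : ℂ)) = 0 := by
    intro x hx
    have e : ∀ y : ℝ, y ∈ Set.uIoc (0 : ℝ) 1 → ((x * y : ℝ) : ℂ) ^ s0 * (W 84 y : ℂ)
        = (x : ℂ) ^ s0 * ((y : ℂ) ^ s0 * (W 84 y : ℂ)) := by
      intro y hy
      rw [uIoc_of_le zero_le_one] at hy
      rw [Complex.ofReal_mul, Complex.mul_cpow_ofReal_nonneg hx.1 hy.1.le]
      ring
    rw [intervalIntegral.integral_congr_ae (Filter.Eventually.of_forall e),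
      intervalIntegral.integral_const_mul, mellin_zero, mul_zero]
  have hpc' : ∀ x : ℝ, Continuous (fun y : ℝ => ((x * y : ℝ) : ℂ) ^ s0 * (W 84 y : ℂ)) := by
    intro x
    exact (hpc.comp (continuous_const.mul continuous_id)).mul
      (Complex.continuous_ofReal.comp (W_cont 84))
  have hre := orth (w₁ := W 168) (w₂ := W 84) (β := β) (φ := fun t => ((t : ℂ) ^ s0).re)
    (W_cont _).continuousOn (W_cont _).continuousOn (W_abs_le (by norm_num))
    (W_abs_le (by norm_num)) (W_moment_pos (by norm_num)) hβ hmom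
    (Complex.continuous_re.comp hpc).continuousOn (by
      intro x hx
      have h1 := congrArg Complex.re (hz x hx)
      rw [← Complex.reCLM_apply, ← ContinuousLinearMap.intervalIntegral_comp_comm _
        ((hpc' x).intervalIntegrable 0 1)] at h1
      simpa using h1)
  have him := orth (w₁ := W 168) (w₂ := W 84) (β := β) (φ := fun t => ((t : ℂ) ^ s0).im)
    (W_cont _).continuousOn (W_cont _).continuousOn (W_abs_le (by norm_num))
    (W_abs_le (by norm_num)) (W_moment_pos (by norm_num)) hβ hmom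
    (Complex.continuous_im.comp hpc).continuousOn (by
      intro x hx
      have h1 := congrArg Complex.im (hz x hx)
      rw [← Complex.imCLM_apply, ← ContinuousLinearMap.intervalIntegral_comp_comm _
        ((hpc' x).intervalIntegrable 0 1)] at h1
      simpa using h1)
  apply mellin_ne
  apply Complex.ext
  · rw [← Complex.reCLM_apply, ← ContinuousLinearMap.intervalIntegral_comp_comm _
      ((hcW 168).intervalIntegrable 0 1)]
    simpa using hre
  · rw [← Complex.imCLM_apply, ← ContinuousLinearMap.intervalIntegral_comp_comm _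
      ((hcW 168).intervalIntegrable 0 1)]
    simpa using him

end Pool.Agent.Results.MP_d888c7_an.NoBVSolution
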